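import Pool.Agent.W2helper8.AN.Main

/-!
# MP_12b54f_gt, Q1, case (a): `ρ₃` and `ρ₂ ⊕ ρ₁` lie in different components

`Γ` is any group with a faithful representation `φ` onto a discrete cocompact subgroup of
`SL(2, ℝ)`, for instance the fundamental group of a closed surface of genus at least `2` with a
Fuchsian representation.  The representations `ρ₃ ∘ φ` and `(ρ₂ ⊕ ρ₁) ∘ φ` of `Γ` in `SL(3, ℂ)` are
`{1, 2}`-Anosov and lie in different connected components of the space of `{1, 2}`-Anosov
representations, with the topology of pointwise convergence.

The invariant: the lines of the limit curve of an Anosov representation `ρ` form a line bundle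
over `Γ \ PSL(2, ℝ)`.  It is trivial for `ρ₃`.  For `ρ₂ ⊕ ρ₁` it is trivial only over the double
cover `Γ \ SL(2, ℝ)`: a trivialization would give a continuous nowhere zero `Γ`-invariant function
`f` on `SL(2, ℝ)` with `f (-g) = - f g`, and the average over `Γ \ SL(2, ℝ)` of the variation of the
phase of `f` along small elements is additive, hence zero on the small rotations, which are products
of small commutators.  The isomorphism class of the bundle is locally constant in `ρ`, by the
stability of the limit curve, which is proved from the definition by means of singular values.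
-/

set_option autoImplicit false

namespace Pool.Agent.Results.MP_12b54f_gt.CaseADistinct

open Pool.Agent.W2helper8.AN Matrix MatrixGroups

/-- Case (a) of Q1: `ρ₃ ∘ φ` and `(ρ₂ ⊕ ρ₁) ∘ φ` are `{1, 2}`-Anosov, and the second does not lie in
the connected component of the first in the space of `{1, 2}`-Anosov representations. -/
theorem result {Γ : Type*} [Group Γ] (φ : Γ →* SL(2, ℝ)) (hinj : Function.Injective φ)
    [DiscreteTopology φ.range] [CompactSpace (SL(2, ℝ) ⧸ φ.range)]
    (S : Set Γ) (hSfin : S.Finite) (hS : Subgroup.closure S = ⊤) :
    (⇑(rho3.comp φ) ∈ anosovLocus S ∧ ⇑(rho21.comp φ) ∈ anosovLocus S) ∧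
      ⇑(rho21.comp φ) ∉ connectedComponentIn (anosovLocus S) ⇑(rho3.comp φ) :=
  main φ hinj S hSfin hS

end Pool.Agent.Results.MP_12b54f_gt.CaseADistinct
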